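import Mathlib

set_option autoImplicit false

namespace Pool.Agent.T6.H96.SD

/-- index set of the construction: `u ≤ Y`, `w ∈ W`, `j < J` -/
def idx (Y J : ℕ) (W : Finset ℕ) : Finset (ℕ × ℕ × ℕ) :=
  Finset.Icc 1 Y ×ˢ W ×ˢ Finset.range J

/-- the number `u w T ^ j` -/
def g (T : ℕ) (s : ℕ × ℕ × ℕ) : ℕ := s.1 * s.2.1 * T ^ s.2.2

theorem mem_idx {Y J : ℕ} {W : Finset ℕ} {s : ℕ × ℕ × ℕ} :
    s ∈ idx Y J W ↔ (1 ≤ s.1 ∧ s.1 ≤ Y) ∧ s.2.1 ∈ W ∧ s.2.2 < J := by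
  simp [idx, Finset.mem_product, Finset.mem_Icc, Finset.mem_range]

theorem card_idx (Y J : ℕ) (W : Finset ℕ) : (idx Y J W).card = Y * (W.card * J) := by
  simp [idx, Finset.card_product]

section

variable {Y Z J T : ℕ} {W : Finset ℕ}

theorem x_bound (hW : ∀ w ∈ W, w.Prime ∧ Y < w ∧ w ≤ Z) {s : ℕ × ℕ × ℕ} (hs : s ∈ idx Y J W) :
    1 ≤ s.1 * s.2.1 ∧ s.1 * s.2.1 ≤ Y * Z := by
  obtain ⟨⟨h1, h2⟩, h3, h4⟩ := mem_idx.1 hs
  obtain ⟨hp, h5, h6⟩ := hW _ h3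
  exact ⟨Nat.mul_pos h1 hp.pos, Nat.mul_le_mul h2 h6⟩

theorem j_eq (hW : ∀ w ∈ W, w.Prime ∧ Y < w ∧ w ≤ Z) (hT : Y * Z < T) {s t : ℕ × ℕ × ℕ}
    (hs : s ∈ idx Y J W) (ht : t ∈ idx Y J W) (h : g T s = g T t) : s.2.2 = t.2.2 := by
  have key : ∀ s t : ℕ × ℕ × ℕ, s ∈ idx Y J W → t ∈ idx Y J W → g T s = g T t →
      ¬ s.2.2 < t.2.2 := by
    intro s t hs ht h hlt
    obtain ⟨a1, a2⟩ := x_bound hW hs
    obtain ⟨b1, b2⟩ := x_bound hW ht
    have hT0 : 0 < T := lt_of_le_of_lt (Nat.zero_le _) hT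
    obtain ⟨k, hk⟩ := Nat.exists_eq_add_of_lt hlt
    unfold g at h
    rw [hk] at h
    have e : t.1 * t.2.1 * T ^ (s.2.2 + k + 1) = (t.1 * t.2.1 * T ^ k * T) * T ^ s.2.2 := by ring
    rw [e] at h
    have h2 : s.1 * s.2.1 = t.1 * t.2.1 * T ^ k * T :=
      Nat.eq_of_mul_eq_mul_right (pow_pos hT0 _) h
    have h3 : 1 ≤ t.1 * t.2.1 * T ^ k := Nat.mul_pos b1 (pow_pos hT0 _)
    have h4 : T ≤ t.1 * t.2.1 * T ^ k * T := Nat.le_mul_of_pos_left _ h3
    omega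
  have h1 := key s t hs ht h
  have h2 := key t s ht hs h.symm
  omega

theorem g_inj (hW : ∀ w ∈ W, w.Prime ∧ Y < w ∧ w ≤ Z) (hT : Y * Z < T) {s t : ℕ × ℕ × ℕ}
    (hs : s ∈ idx Y J W) (ht : t ∈ idx Y J W) (h : g T s = g T t) : s = t := by
  have hj := j_eq hW hT hs ht h
  have hT0 : 0 < T := lt_of_le_of_lt (Nat.zero_le _) hT
  unfold g at h
  rw [hj] at h
  have hx : s.1 * s.2.1 = t.1 * t.2.1 := Nat.eq_of_mul_eq_mul_right (pow_pos hT0 _) h
  obtain ⟨⟨a1, a2⟩, a3, a4⟩ := mem_idx.1 hs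
  obtain ⟨⟨b1, b2⟩, b3, b4⟩ := mem_idx.1 ht
  obtain ⟨pp, p1, p2⟩ := hW _ a3
  obtain ⟨qp, q1, q2⟩ := hW _ b3
  have hw : s.2.1 = t.2.1 := by
    have hd : s.2.1 ∣ t.1 * t.2.1 := hx ▸ Dvd.intro_left _ rfl
    rcases (Nat.Prime.dvd_mul pp).1 hd with h1 | h1
    · exact absurd (Nat.le_of_dvd b1 h1) (by omega)
    · exact (Nat.prime_dvd_prime_iff_eq pp qp).1 h1
  have hu : s.1 = t.1 := by
    rw [hw] at hx
    exact Nat.eq_of_mul_eq_mul_right qp.pos hx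
  exact Prod.ext hu (Prod.ext hw hj)

/-- additive Sidon sets of indices are small -/
theorem add_bound (hW : ∀ w ∈ W, w.Prime ∧ Y < w ∧ w ≤ Z) (hT : Y * Z < T)
    (hYZ : 1 ≤ Y * Z) (S : Finset (ℕ × ℕ × ℕ)) (hS : S ⊆ idx Y J W)
    (hSid : ∀ a ∈ S, ∀ b ∈ S, ∀ c ∈ S, ∀ d ∈ S, g T a + g T b = g T c + g T d →
      (g T a = g T c ∧ g T b = g T d) ∨ (g T a = g T d ∧ g T b = g T c)) :
    S.card ^ 2 ≤ J ^ 2 * (4 * (Y * Z)) := by
  classical
  have hT0 : 0 < T := lt_of_le_of_lt (Nat.zero_le _) hT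
  have hfib : ∀ j, (S.filter fun s => s.2.2 = j).card ^ 2 ≤ 4 * (Y * Z) := by
    intro j
    set F := S.filter fun s => s.2.2 = j with hF
    have hinj : F.offDiag.card ≤ ((Finset.Icc (-(Y * Z : ℤ)) (Y * Z)).erase 0).card := by
      apply Finset.card_le_card_of_injOn
        (fun p : (ℕ × ℕ × ℕ) × (ℕ × ℕ × ℕ) => ((p.1.1 * p.1.2.1 : ℕ) : ℤ) - ((p.2.1 * p.2.2.1 : ℕ) : ℤ))
      · intro p hp
        have hp' := Finset.mem_offDiag.1 (Finset.mem_coe.1 hp)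
        obtain ⟨h1, h2, h3⟩ := hp'
        rw [hF, Finset.mem_filter] at h1 h2
        have c1 := x_bound hW (hS h1.1)
        have c2 := x_bound hW (hS h2.1)
        rw [Finset.mem_coe, Finset.mem_erase, Finset.mem_Icc]
        refine ⟨?_, ?_, ?_⟩
        · intro h0
          apply h3
          apply g_inj hW hT (hS h1.1) (hS h2.1)
          have h4 : p.1.1 * p.1.2.1 = p.2.1 * p.2.2.1 := by
            have : ((p.1.1 * p.1.2.1 : ℕ) : ℤ) = ((p.2.1 * p.2.2.1 : ℕ) : ℤ) := by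
              simpa [sub_eq_zero] using h0
            exact_mod_cast this
          unfold g
          rw [h4, h1.2, h2.2]
        · have e1 : ((p.1.1 * p.1.2.1 : ℕ) : ℤ) ≥ 1 := by exact_mod_cast c1.1
          have e2 : ((p.2.1 * p.2.2.1 : ℕ) : ℤ) ≤ ((Y * Z : ℕ) : ℤ) := by exact_mod_cast c2.2
          push_cast at e1 e2 ⊢
          linarith
        · have e1 : ((p.1.1 * p.1.2.1 : ℕ) : ℤ) ≤ ((Y * Z : ℕ) : ℤ) := by exact_mod_cast c1.2
          have e2 : ((p.2.1 * p.2.2.1 : ℕ) : ℤ) ≥ 1 := by exact_mod_cast c2.1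
          push_cast at e1 e2 ⊢
          linarith
      · intro p hp q hq hpq
        obtain ⟨h1, h2, h3⟩ := Finset.mem_offDiag.1 (Finset.mem_coe.1 hp)
        obtain ⟨h1', h2', h3'⟩ := Finset.mem_offDiag.1 (Finset.mem_coe.1 hq)
        rw [hF, Finset.mem_filter] at h1 h2 h1' h2'
        have e : p.1.1 * p.1.2.1 + q.2.1 * q.2.2.1 = q.1.1 * q.1.2.1 + p.2.1 * p.2.2.1 := by
          have : ((p.1.1 * p.1.2.1 : ℕ) : ℤ) + ((q.2.1 * q.2.2.1 : ℕ) : ℤ) =
              ((q.1.1 * q.1.2.1 : ℕ) : ℤ) + ((p.2.1 * p.2.2.1 : ℕ) : ℤ) := by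
            have h5 : ((p.1.1 * p.1.2.1 : ℕ) : ℤ) - ((p.2.1 * p.2.2.1 : ℕ) : ℤ) =
              ((q.1.1 * q.1.2.1 : ℕ) : ℤ) - ((q.2.1 * q.2.2.1 : ℕ) : ℤ) := hpq
            linarith
          exact_mod_cast this
        have e' : g T p.1 + g T q.2 = g T q.1 + g T p.2 := by
          unfold g
          rw [h1.2, h2.2, h1'.2, h2'.2, ← add_mul, ← add_mul, e]
        rcases hSid _ h1.1 _ h2'.1 _ h1'.1 _ h2.1 e' with ⟨a1, a2⟩ | ⟨a1, a2⟩
        · have b1 := g_inj hW hT (hS h1.1) (hS h1'.1) a1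
          have b2 := g_inj hW hT (hS h2'.1) (hS h2.1) a2
          exact Prod.ext b1 b2.symm
        · exact absurd (g_inj hW hT (hS h1.1) (hS h2.1) a1) h3
    rw [Finset.offDiag_card, Finset.card_erase_of_mem
      (Finset.mem_Icc.2 ⟨by
        have : (0:ℤ) ≤ (Y:ℤ) * Z := by positivity
        linarith, by positivity⟩), Int.card_Icc] at hinj
    have h6 : ((Y:ℤ) * Z + 1 - -((Y:ℤ) * Z)).toNat = 2 * (Y * Z) + 1 := by
      have : ((Y:ℤ) * Z + 1 - -((Y:ℤ) * Z)) = ((2 * (Y * Z) + 1 : ℕ) : ℤ) := by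
        push_cast; ring
      rw [this, Int.toNat_natCast]
    rw [h6] at hinj
    set k := F.card
    rcases Nat.lt_or_ge k 2 with h7 | h7
    · have h8 : k ^ 2 ≤ 1 := by
        interval_cases k <;> simp
      omega
    · have h9 : 2 * k ≤ k * k := Nat.mul_le_mul_right k h7
      have h10 : k ^ 2 = k * k := sq k
      omega
  have hsum : S.card = ∑ j ∈ Finset.range J, (S.filter fun s => s.2.2 = j).card := by
    apply Finset.card_eq_sum_card_fiberwise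
    intro s hs
    exact Finset.mem_coe.2 (Finset.mem_range.2 (mem_idx.1 (hS hs)).2.2)
  rw [hsum]
  calc (∑ j ∈ Finset.range J, (S.filter fun s => s.2.2 = j).card) ^ 2
      ≤ (Finset.range J).card * ∑ j ∈ Finset.range J, (S.filter fun s => s.2.2 = j).card ^ 2 :=
        sq_sum_le_card_mul_sum_sq
    _ ≤ J * (J * (4 * (Y * Z))) := by
        rw [Finset.card_range]
        apply Nat.mul_le_mul_left
        calc ∑ j ∈ Finset.range J, (S.filter fun s => s.2.2 = j).card ^ 2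
            ≤ ∑ _j ∈ Finset.range J, 4 * (Y * Z) := Finset.sum_le_sum fun j _ => hfib j
          _ = J * (4 * (Y * Z)) := by simp
    _ = J ^ 2 * (4 * (Y * Z)) := by ring

/-- multiplicative Sidon sets of indices are small -/
theorem mul_bound (hW : ∀ w ∈ W, w.Prime ∧ Y < w ∧ w ≤ Z) (hT : Y * Z < T)
    (S : Finset (ℕ × ℕ × ℕ)) (hS : S ⊆ idx Y J W)
    (hSid : ∀ a ∈ S, ∀ b ∈ S, ∀ c ∈ S, ∀ d ∈ S, g T a * g T b = g T c * g T d →
      (g T a = g T c ∧ g T b = g T d) ∨ (g T a = g T d ∧ g T b = g T c)) :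
    S.card ^ 2 ≤ W.card * (S.card + Y ^ 2 * (2 * J)) := by
  classical
  set P := S.offDiag.filter (fun p => p.1.2.1 = p.2.2.1) with hP
  have hPcard : P.card ≤ Y ^ 2 * (2 * J) := by
    have h1 : P.card ≤ (Finset.Icc 1 Y ×ˢ Finset.Icc 1 Y ×ˢ Finset.range (2 * J)).card := by
      apply Finset.card_le_card_of_injOn
        (fun p : (ℕ × ℕ × ℕ) × (ℕ × ℕ × ℕ) => (p.1.1, p.2.1, J + p.1.2.2 - p.2.2.2))
      · intro p hp
        rw [Finset.mem_coe, hP, Finset.mem_filter, Finset.mem_offDiag] at hp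
        obtain ⟨⟨h1, h2, h3⟩, h4⟩ := hp
        have a1 := mem_idx.1 (hS h1)
        have a2 := mem_idx.1 (hS h2)
        simp only [Finset.coe_product, Set.mem_prod, Finset.mem_coe, Finset.mem_Icc,
          Finset.mem_range]
        refine ⟨a1.1, a2.1, ?_⟩
        omega
      · intro p hp q hq hpq
        rw [Finset.mem_coe, hP, Finset.mem_filter, Finset.mem_offDiag] at hp hq
        obtain ⟨⟨h1, h2, h3⟩, h4⟩ := hp
        obtain ⟨⟨h1', h2', h3'⟩, h4'⟩ := hq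
        have a1 := mem_idx.1 (hS h1)
        have a2 := mem_idx.1 (hS h2)
        have b1 := mem_idx.1 (hS h1')
        have b2 := mem_idx.1 (hS h2')
        simp only [Prod.mk.injEq] at hpq
        obtain ⟨e1, e2, e3⟩ := hpq
        have e4 : p.1.2.2 + q.2.2.2 = p.2.2.2 + q.1.2.2 := by omega
        have e5 : g T p.1 * g T q.2 = g T p.2 * g T q.1 := by
          unfold g
          have l : p.1.1 * p.1.2.1 * T ^ p.1.2.2 * (q.2.1 * q.2.2.1 * T ^ q.2.2.2) =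
            p.1.1 * p.1.2.1 * q.2.1 * q.2.2.1 * T ^ (p.1.2.2 + q.2.2.2) := by
            rw [pow_add]; ring
          have r : p.2.1 * p.2.2.1 * T ^ p.2.2.2 * (q.1.1 * q.1.2.1 * T ^ q.1.2.2) =
            p.2.1 * p.2.2.1 * q.1.1 * q.1.2.1 * T ^ (p.2.2.2 + q.1.2.2) := by
            rw [pow_add]; ring
          rw [l, r, e4, h4, h4', e1, ← e2]
          ring
        rcases hSid _ h1 _ h2' _ h2 _ h1' e5 with ⟨c1, c2⟩ | ⟨c1, c2⟩
        · exact absurd (g_inj hW hT (hS h1) (hS h2) c1) h3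
        · exact Prod.ext (g_inj hW hT (hS h1) (hS h1') c1)
            (g_inj hW hT (hS h2') (hS h2) c2).symm
    refine h1.trans (le_of_eq ?_)
    rw [Finset.card_product, Finset.card_product, Nat.card_Icc, Finset.card_range]
    simp only [Nat.add_sub_cancel]
    ring
  have hfib : ∀ w ∈ W, (S.filter fun s => s.2.1 = w).card ^ 2 =
      (S.filter fun s => s.2.1 = w).card + (P.filter fun p => p.1.2.1 = w).card := by
    intro w _
    have e : P.filter (fun p => p.1.2.1 = w) = (S.filter fun s => s.2.1 = w).offDiag := by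
      ext p
      rw [hP, Finset.mem_filter, Finset.mem_filter, Finset.mem_offDiag, Finset.mem_offDiag,
        Finset.mem_filter, Finset.mem_filter]
      constructor
      · rintro ⟨⟨⟨h1, h2, h3⟩, h4⟩, h5⟩
        exact ⟨⟨h1, h5⟩, ⟨h2, h4 ▸ h5⟩, h3⟩
      · rintro ⟨⟨h1, h5⟩, ⟨h2, h6⟩, h3⟩
        exact ⟨⟨⟨h1, h2, h3⟩, h5.trans h6.symm⟩, h5⟩
    rw [e, Finset.offDiag_card]
    set k := (S.filter fun s => s.2.1 = w).card
    have h7 : k ≤ k * k := Nat.le_mul_self k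
    have h8 : k ^ 2 = k * k := sq k
    omega
  have hsum : S.card = ∑ w ∈ W, (S.filter fun s => s.2.1 = w).card := by
    apply Finset.card_eq_sum_card_fiberwise
    intro s hs
    exact Finset.mem_coe.2 (mem_idx.1 (hS hs)).2.1
  have hsumP : P.card = ∑ w ∈ W, (P.filter fun p => p.1.2.1 = w).card := by
    apply Finset.card_eq_sum_card_fiberwise
    intro p hp
    rw [Finset.mem_coe, hP, Finset.mem_filter, Finset.mem_offDiag] at hp
    exact Finset.mem_coe.2 (mem_idx.1 (hS hp.1.1)).2.1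
  have h1 : S.card ^ 2 ≤ W.card * ∑ w ∈ W, (S.filter fun s => s.2.1 = w).card ^ 2 := by
    conv_lhs => rw [hsum]
    exact sq_sum_le_card_mul_sum_sq
  have h2 : ∑ w ∈ W, (S.filter fun s => s.2.1 = w).card ^ 2 = S.card + P.card := by
    rw [Finset.sum_congr rfl hfib, Finset.sum_add_distrib, ← hsum, ← hsumP]
  rw [h2] at h1
  exact h1.trans (Nat.mul_le_mul_left _ (Nat.add_le_add_left hPcard _))

end

end Pool.Agent.T6.H96.SD
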