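import Pool.Agent.T6.H96.SD.Core

set_option autoImplicit false

namespace Pool.Agent.T6.H96.SD

open Real

/-- additive Sidon sets -/
def AddSidon (B : Finset ℤ) : Prop :=
  ∀ a ∈ B, ∀ b ∈ B, ∀ c ∈ B, ∀ d ∈ B, a + b = c + d → (a = c ∧ b = d) ∨ (a = d ∧ b = c)

/-- multiplicative Sidon sets -/
def MulSidon (B : Finset ℤ) : Prop :=
  ∀ a ∈ B, ∀ b ∈ B, ∀ c ∈ B, ∀ d ∈ B, a * b = c * d → (a = c ∧ b = d) ∨ (a = d ∧ b = c)

/-- the length parameter -/
def ell (m : ℕ) : ℕ := Nat.log 2 m + 1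

theorem log_le (m : ℕ) (hm : 1 ≤ m) : Real.log (256 * m * ell m : ℕ) ≤ 8 * ell m := by
  have hm0 : (0:ℝ) < m := by exact_mod_cast hm
  have hl0 : (0:ℝ) < ell m := by unfold ell; positivity
  have hl1 : (1:ℝ) ≤ ell m := by unfold ell; push_cast; linarith [Nat.cast_nonneg (α := ℝ) (Nat.log 2 m)]
  have h1 : Real.log (256 * m * ell m : ℕ) = Real.log 256 + Real.log m + Real.log (ell m) := by
    push_cast
    rw [Real.log_mul (by positivity) hl0.ne', Real.log_mul (by norm_num) hm0.ne']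
  have h2 : Real.log 256 = 8 * Real.log 2 := by
    rw [show (256:ℝ) = 2 ^ (8:ℕ) by norm_num, Real.log_pow]; norm_num
  have h3 : Real.log m ≤ ell m * Real.log 2 := by
    have h4 : m < 2 ^ (ell m) := Nat.lt_pow_succ_log_self (by norm_num) m
    have h5 : (m:ℝ) ≤ (2:ℝ) ^ (ell m) := by exact_mod_cast h4.le
    calc Real.log m ≤ Real.log ((2:ℝ) ^ (ell m)) := Real.log_le_log hm0 h5
      _ = ell m * Real.log 2 := Real.log_pow _ _
  have h6 : Real.log (ell m) ≤ ell m - 1 := Real.log_le_sub_one_of_pos hl0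
  have h7 := Real.log_two_lt_d9
  have h8 := Real.log_two_gt_d9
  rw [h1, h2]
  nlinarith

/-- many primes between `Y` and `Y ^ 3` -/
theorem many_primes (m : ℕ) (hm : 1 ≤ m) :
    ∃ W : Finset ℕ, W.card = m * (256 * m * ell m) ^ 2 ∧
      ∀ w ∈ W, w.Prime ∧ 256 * m * ell m < w ∧ w ≤ (256 * m * ell m) ^ 3 := by
  obtain ⟨Y, hY⟩ : ∃ Y, Y = 256 * m * ell m := ⟨_, rfl⟩
  have hl := log_le m hm
  rw [← hY] at hl ⊢
  have hl1 : 1 ≤ ell m := by unfold ell; omega
  have hY1 : 256 ≤ Y := by rw [hY]; nlinarith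
  have hY0 : (0:ℝ) < Y := by exact_mod_cast (by omega : 0 < Y)
  have hYr : (256:ℝ) ≤ Y := by exact_mod_cast hY1
  obtain ⟨x, hx⟩ : ∃ x, x = Y ^ 3 := ⟨_, rfl⟩
  have hxr : (x:ℝ) = (Y:ℝ) ^ 3 := by rw [hx]; push_cast; ring
  have hx100 : (100:ℝ) ≤ x := by rw [hxr]; nlinarith [pow_le_pow_left₀ (by norm_num) hYr 3]
  have hπ := Chebyshev.pi_ge x
  have hlogx : Real.log x = 3 * Real.log Y := by rw [hxr, Real.log_pow]; norm_num
  have hlogY0 : 0 < Real.log Y := Real.log_pos (by linarith)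
  have hlogx0 : 0 < Real.log x := by rw [hlogx]; positivity
  have hlog1 : Real.log ((x:ℝ) + 1) ≤ x / 4 := by
    have h1 : Real.log (((x:ℝ) + 1) / 16) ≤ ((x:ℝ) + 1) / 16 - 1 :=
      Real.log_le_sub_one_of_pos (by positivity)
    have h2 : Real.log (((x:ℝ) + 1) / 16) = Real.log ((x:ℝ) + 1) - Real.log 16 :=
      Real.log_div (by positivity) (by norm_num)
    have h3 : Real.log 16 = 4 * Real.log 2 := by
      rw [show (16:ℝ) = 2 ^ (4:ℕ) by norm_num, Real.log_pow]; norm_num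
    have h4 := Real.log_two_lt_d9
    linarith
  have h2 := Real.log_two_gt_d9
  have hlr : (0:ℝ) < ell m := by exact_mod_cast hl1
  have hπ2 : (x:ℝ) * (11/25) / (24 * ell m) ≤ Nat.primeCounting x := by
    refine le_trans ?_ hπ
    rw [div_le_div_iff₀ (by positivity) hlogx0, hlogx]
    have h5 : (x:ℝ) * (11/25) ≤ x * Real.log 2 - Real.log ((x:ℝ) + 1) := by nlinarith
    have h6 : 3 * Real.log Y ≤ 24 * ell m := by linarith
    calc (x:ℝ) * (11/25) * (3 * Real.log Y) ≤ (x:ℝ) * (11/25) * (24 * ell m) := by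
          apply mul_le_mul_of_nonneg_left h6 (by positivity)
      _ ≤ (x * Real.log 2 - Real.log ((x:ℝ) + 1)) * (24 * ell m) := by
          apply mul_le_mul_of_nonneg_right h5 (by positivity)
  have hYm : (Y:ℝ) = 256 * m * ell m := by rw [hY]; push_cast; ring
  have hmain : m * Y ^ 2 + Y ≤ Nat.primeCounting x := by
    have h7 : ((m * Y ^ 2 + Y : ℕ) : ℝ) ≤ (x:ℝ) * (11/25) / (24 * ell m) := by
      rw [le_div_iff₀ (by positivity), hxr]
      push_cast
      have h8 : (m:ℝ) * ell m = Y / 256 := by rw [hYm]; ring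
      have h9 : (ell m : ℝ) ≤ Y / 256 := by
        rw [← h8]
        have : (1:ℝ) ≤ m := by exact_mod_cast hm
        nlinarith
      have e1 : ((m:ℝ) * Y ^ 2 + Y) * (24 * ell m) = 24 * (m * ell m) * Y ^ 2 + 24 * Y * ell m := by
        ring
      rw [e1, h8]
      have h10 : 24 * (Y:ℝ) * ell m ≤ 24 * Y * (Y / 256) := by
        apply mul_le_mul_of_nonneg_left h9 (by positivity)
      have h11 : (Y:ℝ) ^ 2 ≤ Y ^ 3 / 256 := by
        rw [le_div_iff₀ (by norm_num)]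
        nlinarith [pow_pos hY0 2]
      nlinarith [pow_pos hY0 2, pow_pos hY0 3]
    exact_mod_cast h7.trans hπ2
  -- the primes in `(Y, Y ^ 3]`
  obtain ⟨P, hP⟩ : ∃ P : Finset ℕ, P = (Finset.Ioc Y x).filter Nat.Prime := ⟨_, rfl⟩
  have hPc : m * Y ^ 2 ≤ P.card := by
    have h12 : Nat.primeCounting x ≤ Y + P.card := by
      have h13 : Nat.primeCounting x = ((Finset.range (x + 1)).filter Nat.Prime).card := by
        rw [Nat.primeCounting, Nat.primeCounting', Nat.count_eq_card_filter_range]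
      rw [h13]
      calc ((Finset.range (x + 1)).filter Nat.Prime).card
          ≤ (Finset.Icc 1 Y ∪ P).card := by
            apply Finset.card_le_card
            intro p hp
            rw [Finset.mem_filter, Finset.mem_range] at hp
            rw [Finset.mem_union, Finset.mem_Icc, hP, Finset.mem_filter, Finset.mem_Ioc]
            have := hp.2.one_lt
            by_cases h : p ≤ Y
            · left; omega
            · right; exact ⟨by omega, hp.2⟩
        _ ≤ (Finset.Icc 1 Y).card + P.card := Finset.card_union_le _ _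
        _ = Y + P.card := by simp
    omega
  obtain ⟨W, hW1, hW2⟩ := Finset.exists_subset_card_eq hPc
  refine ⟨W, hW2, fun w hw => ?_⟩
  have h14 := hW1 hw
  rw [hP, Finset.mem_filter, Finset.mem_Ioc] at h14
  rw [← hx]
  exact ⟨h14.2, h14.1.1, h14.1.2⟩

/-- the construction with parameter `m` -/
theorem construct (m : ℕ) (hm : 1 ≤ m) :
    ∃ A : Finset ℤ, A.card = 256 ^ 3 * (m ^ 5 * ell m ^ 3) ∧ (∀ a ∈ A, 0 < a) ∧
      ∀ B ⊆ A, AddSidon B ∨ MulSidon B → B.card ≤ 2 * 256 ^ 2 * (m ^ 3 * ell m ^ 2) := by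
  classical
  obtain ⟨W, hWc, hW⟩ := many_primes m hm
  obtain ⟨Y, hY⟩ : ∃ Y, Y = 256 * m * ell m := ⟨_, rfl⟩
  rw [← hY] at hWc hW
  have hl1 : 1 ≤ ell m := by unfold ell; omega
  have hY1 : 256 ≤ Y := by rw [hY]; nlinarith
  obtain ⟨T, hT'⟩ : ∃ T, T = Y * Y ^ 3 + 1 := ⟨_, rfl⟩
  have hT : Y * Y ^ 3 < T := by omega
  have hYZ : 1 ≤ Y * Y ^ 3 := Nat.mul_pos (by omega) (pow_pos (by omega) _)
  obtain ⟨f, hf⟩ : ∃ f : ℕ × ℕ × ℕ → ℤ, ∀ s, f s = (g T s : ℤ) := ⟨_, fun _ => rfl⟩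
  have hinj : Set.InjOn f (idx Y m W : Set (ℕ × ℕ × ℕ)) := by
    intro s hs t ht h
    rw [hf, hf] at h
    exact g_inj hW hT (Finset.mem_coe.1 hs) (Finset.mem_coe.1 ht) (by exact_mod_cast h)
  refine ⟨(idx Y m W).image f, ?_, ?_, ?_⟩
  · rw [Finset.card_image_of_injOn hinj, card_idx, hWc, hY]
    ring
  · intro a ha
    obtain ⟨s, hs, rfl⟩ := Finset.mem_image.1 ha
    have h1 := (x_bound hW hs).1
    have hT0 : 0 < T := by omega
    have h2 : 0 < g T s := Nat.mul_pos h1 (pow_pos hT0 _)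
    rw [hf]
    exact_mod_cast h2
  · intro B hB hSid
    obtain ⟨S, hS⟩ : ∃ S, S = (idx Y m W).filter fun s => f s ∈ B := ⟨_, rfl⟩
    have hSsub : S ⊆ idx Y m W := hS ▸ Finset.filter_subset _ _
    have hSB : ∀ s ∈ S, f s ∈ B := fun s hs => by
      rw [hS, Finset.mem_filter] at hs
      exact hs.2
    have hBS : B = S.image f := by
      ext b
      rw [Finset.mem_image]
      constructor
      · intro hb
        obtain ⟨s, hs, rfl⟩ := Finset.mem_image.1 (hB hb)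
        exact ⟨s, by rw [hS, Finset.mem_filter]; exact ⟨hs, hb⟩, rfl⟩
      · rintro ⟨s, hs, rfl⟩
        exact hSB s hs
    have hcard : B.card = S.card := by
      rw [hBS, Finset.card_image_of_injOn (hinj.mono (by exact_mod_cast hSsub))]
    have hgoal : 2 * 256 ^ 2 * (m ^ 3 * ell m ^ 2) = 2 * (m * Y ^ 2) := by rw [hY]; ring
    rw [hgoal, hcard]
    rcases hSid with h | h
    · have h1 := add_bound hW hT hYZ S hSsub (fun a ha b hb c hc d hd e => by
        have e' : f a + f b = f c + f d := by rw [hf, hf, hf, hf]; exact_mod_cast e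
        rcases h _ (hSB a ha) _ (hSB b hb) _ (hSB c hc) _ (hSB d hd) e' with ⟨x, y⟩ | ⟨x, y⟩
        · left
          rw [hf, hf] at x y
          exact ⟨by exact_mod_cast x, by exact_mod_cast y⟩
        · right
          rw [hf, hf] at x y
          exact ⟨by exact_mod_cast x, by exact_mod_cast y⟩)
      have h2 : m ^ 2 * (4 * (Y * Y ^ 3)) = (2 * (m * Y ^ 2)) ^ 2 := by ring
      rw [h2] at h1
      exact (Nat.pow_le_pow_iff_left (by norm_num)).1 h1
    · have h1 := mul_bound hW hT S hSsub (fun a ha b hb c hc d hd e => by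
        have e' : f a * f b = f c * f d := by rw [hf, hf, hf, hf]; exact_mod_cast e
        rcases h _ (hSB a ha) _ (hSB b hb) _ (hSB c hc) _ (hSB d hd) e' with ⟨x, y⟩ | ⟨x, y⟩
        · left
          rw [hf, hf] at x y
          exact ⟨by exact_mod_cast x, by exact_mod_cast y⟩
        · right
          rw [hf, hf] at x y
          exact ⟨by exact_mod_cast x, by exact_mod_cast y⟩)
      rw [hWc] at h1
      by_contra hcon
      push Not at hcon
      obtain ⟨K, hK⟩ : ∃ K, K = m * Y ^ 2 := ⟨_, rfl⟩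
      have hK2 : Y ^ 2 * (2 * m) = 2 * K := by rw [hK]; ring
      rw [hK2, ← hK] at h1
      rw [← hK] at hcon
      nlinarith

/-- **Main theorem**, finite form. -/
theorem main : ∃ C : ℕ, ∀ n : ℕ, ∃ A : Finset ℤ, A.card = n ∧ (∀ a ∈ A, 0 < a) ∧
    ∀ B ⊆ A, AddSidon B ∨ MulSidon B → B.card ^ 5 ≤ C * (n ^ 3 * (Nat.log 2 n + 1)) := by
  classical
  refine ⟨(2 * 256 ^ 2) ^ 5 * 256 ^ 3, fun n => ?_⟩
  rcases Nat.eq_zero_or_pos n with rfl | hn
  · refine ⟨∅, rfl, by simp, fun B hB _ => ?_⟩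
    rw [Finset.subset_empty.1 hB]
    simp
  have hex : ∃ m : ℕ, 1 ≤ m ∧ n ≤ m ^ 5 * ell m ^ 3 := by
    refine ⟨n, hn, ?_⟩
    have h1 : 1 ≤ ell n ^ 3 := Nat.one_le_pow _ _ (by unfold ell; omega)
    calc n = n ^ 1 * 1 := by ring
      _ ≤ n ^ 5 * ell n ^ 3 := Nat.mul_le_mul (Nat.pow_le_pow_right hn (by norm_num)) h1
  obtain ⟨hm1, hm2⟩ := Nat.find_spec hex
  have hmin := fun k => Nat.find_min hex (m := k)
  obtain ⟨m, hm⟩ : ∃ m, m = Nat.find hex := ⟨_, rfl⟩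
  rw [← hm] at hm1 hm2 hmin
  -- upper bounds for the parameter
  have hup : m ^ 5 * ell m ^ 3 ≤ 256 * n ∧ ell m ≤ Nat.log 2 n + 1 := by
    rcases Nat.lt_or_ge m 2 with h | h
    · have : m = 1 := by omega
      subst this
      have h1 : ell 1 = 1 := by simp [ell]
      rw [h1]
      constructor
      · omega
      · omega
    · obtain ⟨k, rfl⟩ : ∃ k, m = k + 1 := ⟨m - 1, by omega⟩
      have hk1 : 1 ≤ k := by omega
      have h1 := hmin k (by omega)
      have h2 : k ^ 5 * ell k ^ 3 < n := by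
        by_contra hc
        exact h1 ⟨hk1, by omega⟩
      have hkn : k < n := by
        refine lt_of_le_of_lt ?_ h2
        have h3 : 1 ≤ ell k ^ 3 := Nat.one_le_pow _ _ (by unfold ell; omega)
        calc k = k ^ 1 * 1 := by ring
          _ ≤ k ^ 5 * ell k ^ 3 := Nat.mul_le_mul (Nat.pow_le_pow_right hk1 (by norm_num)) h3
      constructor
      · have h4 : ell (k + 1) ≤ 2 * ell k := by
          unfold ell
          have h5 : Nat.log 2 (k + 1) ≤ Nat.log 2 (k * 2) := Nat.log_mono_right (by omega)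
          have h6 : Nat.log 2 (k * 2) = Nat.log 2 k + 1 :=
            Nat.log_mul_base (by norm_num) (by omega)
          omega
        calc (k + 1) ^ 5 * ell (k + 1) ^ 3 ≤ (2 * k) ^ 5 * (2 * ell k) ^ 3 :=
              Nat.mul_le_mul (Nat.pow_le_pow_left (by omega) _) (Nat.pow_le_pow_left h4 _)
          _ = 256 * (k ^ 5 * ell k ^ 3) := by ring
          _ ≤ 256 * n := Nat.mul_le_mul_left _ h2.le
      · unfold ell
        have := Nat.log_mono_right (b := 2) (show k + 1 ≤ n by omega)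
        omega
  obtain ⟨A₀, hA0, hpos, hA⟩ := construct m hm1
  have hnA : n ≤ A₀.card := by
    rw [hA0]
    calc n ≤ m ^ 5 * ell m ^ 3 := hm2
      _ ≤ 256 ^ 3 * (m ^ 5 * ell m ^ 3) := Nat.le_mul_of_pos_left _ (by norm_num)
  obtain ⟨A, hAs, hAc⟩ := Finset.exists_subset_card_eq hnA
  refine ⟨A, hAc, fun a ha => hpos a (hAs ha), fun B hB hSid => ?_⟩
  have h1 := hA B (hB.trans hAs) hSid
  calc B.card ^ 5 ≤ (2 * 256 ^ 2 * (m ^ 3 * ell m ^ 2)) ^ 5 := Nat.pow_le_pow_left h1 _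
    _ = (2 * 256 ^ 2) ^ 5 * ((m ^ 5 * ell m ^ 3) ^ 3 * ell m) := by ring
    _ ≤ (2 * 256 ^ 2) ^ 5 * ((256 * n) ^ 3 * (Nat.log 2 n + 1)) :=
        Nat.mul_le_mul_left _ (Nat.mul_le_mul (Nat.pow_le_pow_left hup.1 _) hup.2)
    _ = (2 * 256 ^ 2) ^ 5 * 256 ^ 3 * (n ^ 3 * (Nat.log 2 n + 1)) := by ring

open Filter in
/-- real form -/
theorem main_real (δ : ℝ) (hδ : 1 / 10 < δ) (c : ℝ) (hc : 0 < c) :
    ∀ᶠ n : ℕ in atTop, ∃ A : Finset ℤ, A.card = n ∧ (∀ a ∈ A, 0 < a) ∧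
      ∀ B ⊆ A, AddSidon B ∨ MulSidon B → (B.card : ℝ) < c * (n : ℝ) ^ (1 / 2 + δ) := by
  obtain ⟨C, hC⟩ := main
  obtain ⟨ε, hε⟩ : ∃ ε, ε = 5 * δ - 1 / 2 := ⟨_, rfl⟩
  have hε0 : 0 < ε := by rw [hε]; linarith
  -- `log n = o(n ^ ε)`
  have h1 : Tendsto (fun n : ℕ => (C : ℝ) * (2 * Real.log n + 1) / (n : ℝ) ^ ε) atTop (nhds 0) := by
    have h2 : Tendsto (fun x : ℝ => (C : ℝ) * (2 * Real.log x + 1) / x ^ ε) atTop (nhds 0) := by
      have h3 : Tendsto (fun x : ℝ => Real.log x / x ^ ε) atTop (nhds 0) :=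
        (isLittleO_log_rpow_atTop hε0).tendsto_div_nhds_zero
      have h4 : Tendsto (fun x : ℝ => 1 / x ^ ε) atTop (nhds 0) := by
        simpa using (tendsto_rpow_atTop hε0).const_div_atTop 1
      have h5 := ((h3.const_mul 2).add h4).const_mul (C : ℝ)
      refine (h5.congr fun x => ?_).trans (by simp)
      ring
    exact h2.comp tendsto_natCast_atTop_atTop
  have h6 : ∀ᶠ n : ℕ in atTop, (C : ℝ) * (2 * Real.log n + 1) / (n : ℝ) ^ ε < c ^ 5 :=
    h1.eventually_lt_const (by positivity)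
  filter_upwards [h6, eventually_ge_atTop 1] with n hn hn1
  obtain ⟨A, hA1, hA2, hA3⟩ := hC n
  refine ⟨A, hA1, hA2, fun B hB hSid => ?_⟩
  have h7 := hA3 B hB hSid
  have hn0 : (0:ℝ) < n := by exact_mod_cast hn1
  have h8 : ((B.card : ℝ)) ^ 5 ≤ C * ((n:ℝ) ^ 3 * (2 * Real.log n + 1)) := by
    have h9 : ((B.card : ℝ)) ^ 5 ≤ C * ((n:ℝ) ^ 3 * ((Nat.log 2 n : ℝ) + 1)) := by exact_mod_cast h7
    have h10 : (Nat.log 2 n : ℝ) ≤ 2 * Real.log n := by
      have h11 : (2:ℝ) ^ (Nat.log 2 n) ≤ n := by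
        exact_mod_cast Nat.pow_log_le_self 2 (by omega)
      have h12 := Real.log_le_log (by positivity) h11
      rw [Real.log_pow] at h12
      have h13 := Real.log_two_gt_d9
      have h14 : (0:ℝ) ≤ (Nat.log 2 n : ℝ) := Nat.cast_nonneg _
      nlinarith
    refine h9.trans ?_
    gcongr
  have h15 : (c * (n : ℝ) ^ (1 / 2 + δ)) ^ 5 = c ^ 5 * ((n:ℝ) ^ 3 * (n:ℝ) ^ ε) := by
    rw [mul_pow, ← Real.rpow_natCast ((n:ℝ) ^ (1 / 2 + δ)) 5, ← Real.rpow_mul hn0.le,
      ← Real.rpow_natCast (n:ℝ) 3, ← Real.rpow_add hn0, hε]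
    congr 2
    push_cast
    ring
  have h16 : ((B.card : ℝ)) ^ 5 < (c * (n : ℝ) ^ (1 / 2 + δ)) ^ 5 := by
    rw [h15]
    refine h8.trans_lt ?_
    rw [div_lt_iff₀ (Real.rpow_pos_of_pos hn0 _)] at hn
    calc C * ((n:ℝ) ^ 3 * (2 * Real.log n + 1)) = (n:ℝ) ^ 3 * (C * (2 * Real.log n + 1)) := by ring
      _ < (n:ℝ) ^ 3 * (c ^ 5 * (n:ℝ) ^ ε) := by
          apply mul_lt_mul_of_pos_left hn (by positivity)
      _ = c ^ 5 * ((n:ℝ) ^ 3 * (n:ℝ) ^ ε) := by ring
  exact lt_of_pow_lt_pow_left₀ 5 (by positivity) h16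

end Pool.Agent.T6.H96.SD
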